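import Pool.Agent.T9h11.NF.Spec2

/-! # Plateau and bump functions, existence of the slots -/

set_option autoImplicit false

namespace Pool.Agent.T9h82.NF

open Finset NumberField Pool.Agent.T9h11.NF

variable (K : Type) [Field K] [NumberField K]

lemma norm_coord_sub_le (z z' : Sp K) (v : InfinitePlace K) : |‖z v‖ - ‖z' v‖| ≤ ‖z - z'‖ :=
  (abs_norm_sub_norm_le _ _).trans (by
    have := norm_le_pi_norm (z - z') v
    simpa using this)

/-- distance to `[c₁, c₂]`. -/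
noncomputable def di (c₁ c₂ t : ℝ) : ℝ := max 0 (max (c₁ - t) (t - c₂))

lemma di_nonneg (c₁ c₂ t : ℝ) : 0 ≤ di c₁ c₂ t := le_max_left _ _

lemma di_lip (c₁ c₂ s t : ℝ) : |di c₁ c₂ s - di c₁ c₂ t| ≤ |s - t| := by
  unfold di
  refine (abs_max_sub_max_le_max _ _ _ _).trans ?_
  rw [sub_self, abs_zero]
  apply max_le (abs_nonneg _)
  refine (abs_max_sub_max_le_max _ _ _ _).trans ?_
  apply max_le
  · have : c₁ - s - (c₁ - t) = -(s - t) := by ring
    rw [this, abs_neg]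
  · have : s - c₂ - (t - c₂) = s - t := by ring
    rw [this]

theorem platK : PlatK K := by
  classical
  intro c₁ c₂ h1 h12
  set n : ℝ := (Fintype.card (InfinitePlace K) : ℝ) with hn
  have hn0 : 0 ≤ n := by positivity
  set S : Sp K → ℝ := fun z => ∑ v, di c₁ c₂ ‖z v‖ with hS
  have hSl : ∀ z z', |S z - S z'| ≤ n * ‖z - z'‖ := by
    intro z z'
    simp only [hS]
    rw [← Finset.sum_sub_distrib]
    refine (Finset.abs_sum_le_sum_abs _ _).trans ?_
    calc ∑ v : InfinitePlace K, |di c₁ c₂ ‖z v‖ - di c₁ c₂ ‖z' v‖|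
        ≤ ∑ _v : InfinitePlace K, ‖z - z'‖ := Finset.sum_le_sum fun v _ =>
          (di_lip _ _ _ _).trans (norm_coord_sub_le K z z' v)
      _ = n * ‖z - z'‖ := by rw [Finset.sum_const, Finset.card_univ, nsmul_eq_mul]
  have hS0 : ∀ z, 0 ≤ S z := fun z => Finset.sum_nonneg fun v _ => di_nonneg _ _ _
  have hone : ∀ z : Sp K, (∀ v, c₁ ≤ ‖z v‖ ∧ ‖z v‖ ≤ c₂) → S z = 0 := by
    intro z hz
    simp only [hS]
    apply Finset.sum_eq_zero
    intro v _
    unfold di
    rw [max_eq_left]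
    apply max_le
    · linarith [(hz v).1]
    · linarith [(hz v).2]
  refine ⟨fun z => max 0 (1 - 2 / c₁ * S z), ⟨?_, ⟨2 / c₁ * n, ?_⟩, ⟨c₁ / 2, c₂ + c₁ / 2, by positivity, ?_⟩,
    ⟨fun _ => (c₁ : ℂ), ⟨?_, ?_⟩, ?_⟩⟩, ?_⟩
  · intro z
    refine ⟨le_max_left _ _, max_le zero_le_one ?_⟩
    have : 0 ≤ 2 / c₁ * S z := mul_nonneg (by positivity) (hS0 z)
    linarith
  · intro z z'
    refine (abs_max_sub_max_le_max _ _ _ _).trans ?_
    rw [sub_self, abs_zero]
    apply max_le (by positivity)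
    have : 1 - 2 / c₁ * S z - (1 - 2 / c₁ * S z') = -(2 / c₁ * (S z - S z')) := by ring
    rw [this, abs_neg, abs_mul, abs_of_pos (by positivity : 0 < 2 / c₁), mul_assoc]
    exact mul_le_mul_of_nonneg_left (hSl z z') (by positivity)
  · intro z hz v
    have h2 : 2 / c₁ * S z < 1 := by
      by_contra hcon
      push Not at hcon
      exact hz (max_eq_left (by linarith))
    have h3 : S z < c₁ / 2 := by
      rw [div_mul_eq_mul_div, div_lt_one h1] at h2
      linarith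
    have h4 : di c₁ c₂ ‖z v‖ ≤ S z :=
      Finset.single_le_sum (f := fun v => di c₁ c₂ ‖z v‖) (fun w _ => di_nonneg _ _ _)
        (Finset.mem_univ v)
    have h5 : di c₁ c₂ ‖z v‖ < c₁ / 2 := lt_of_le_of_lt h4 h3
    have h6 : c₁ - ‖z v‖ ≤ di c₁ c₂ ‖z v‖ := (le_max_left _ _).trans (le_max_right _ _)
    have h7 : ‖z v‖ - c₂ ≤ di c₁ c₂ ‖z v‖ := (le_max_right _ _).trans (le_max_right _ _)
    constructor <;> linarith
  · intro v
    simp only [ne_eq, Complex.ofReal_eq_zero]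
    exact h1.ne'
  · intro v _
    simp
  · have : S (fun _ => (c₁ : ℂ)) = 0 := by
      apply hone
      intro v
      rw [Complex.norm_real, Real.norm_of_nonneg h1.le]
      exact ⟨le_refl _, h12⟩
    simp only [this]
    norm_num
  · intro z hz
    simp only [hone z hz]
    norm_num

theorem bumpK : BumpK K := by
  classical
  intro z₀ θ hz₀ hθ
  obtain ⟨m, hm0, hm⟩ : ∃ m : ℝ, 0 < m ∧ ∀ v, m ≤ ‖z₀ v‖ := by
    obtain ⟨v0, -, hv0⟩ := Finset.exists_min_image (Finset.univ : Finset (InfinitePlace K))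
      (fun v => ‖z₀ v‖) Finset.univ_nonempty
    exact ⟨‖z₀ v0‖, norm_pos_iff.mpr (hz₀.1 v0), fun v => hv0 v (Finset.mem_univ v)⟩
  set t : ℝ := min θ (m / 2) with ht
  have ht0 : 0 < t := lt_min hθ (by positivity)
  have hsupp : ∀ z : Sp K, max 0 (1 - ‖z - z₀‖ / t) ≠ 0 → ‖z - z₀‖ < t := by
    intro z hz
    by_contra hcon
    push Not at hcon
    apply hz
    apply max_eq_left
    have : 1 ≤ ‖z - z₀‖ / t := (one_le_div ht0).mpr hcon
    linarith
  refine ⟨fun z => max 0 (1 - ‖z - z₀‖ / t), ⟨?_, ⟨1 / t, ?_⟩, ⟨m / 2, ‖z₀‖ + t, by positivity, ?_⟩,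
    ⟨z₀, hz₀, ?_⟩⟩, ?_⟩
  · intro z
    refine ⟨le_max_left _ _, max_le zero_le_one ?_⟩
    have : 0 ≤ ‖z - z₀‖ / t := by positivity
    linarith
  · intro z z'
    refine (abs_max_sub_max_le_max _ _ _ _).trans ?_
    rw [sub_self, abs_zero]
    apply max_le (by positivity)
    have : 1 - ‖z - z₀‖ / t - (1 - ‖z' - z₀‖ / t) = -(1 / t * (‖z - z₀‖ - ‖z' - z₀‖)) := by ring
    rw [this, abs_neg, abs_mul, abs_of_pos (by positivity : 0 < 1 / t)]
    apply mul_le_mul_of_nonneg_left _ (by positivity)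
    refine (abs_norm_sub_norm_le _ _).trans (le_of_eq ?_)
    congr 1
    abel
  · intro z hz v
    have h1 := hsupp z hz
    have h2 := abs_le.mp (norm_coord_sub_le K z z₀ v)
    have h3 := hm v
    have h4 : t ≤ m / 2 := min_le_right _ _
    have h5 := norm_le_pi_norm z₀ v
    constructor <;> linarith [h2.1, h2.2]
  · simp
  · intro z hz
    exact (hsupp z hz).le.trans (min_le_left _ _)

theorem slotEx : SlotEx K := by
  classical
  intro ρ M D hρ hD
  obtain ⟨c₁, c₂, hc₁, hc⟩ := hρ.2.2.1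
  have hfin : {x : 𝓞 K | ρ (D⁻¹ • E (x : K)) ≠ 0}.Finite := by
    have h1 := NumberField.Embeddings.finite_of_norm_le K ℂ (c₂ * D)
    have h2 : {x : 𝓞 K | ρ (D⁻¹ • E (x : K)) ≠ 0} ⊆
        (fun x : 𝓞 K => (x : K)) ⁻¹' {x : K | IsIntegral ℤ x ∧ ∀ φ : K →+* ℂ, ‖φ x‖ ≤ c₂ * D} := by
      intro x hx
      refine ⟨x.2, ?_⟩
      intro φ
      have h3 := (hc _ hx (InfinitePlace.mk φ)).2
      simp only [Pi.smul_apply, norm_smul, Real.norm_eq_abs, abs_of_pos (inv_pos.mpr hD)] at h3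
      rw [inv_mul_le_iff₀ hD] at h3
      have h4 : ‖E (x : K) (InfinitePlace.mk φ)‖ = ‖φ (x : K)‖ := by
        have h5 : ‖(InfinitePlace.mk φ).embedding (x : K)‖ = InfinitePlace.mk φ (x : K) :=
          InfinitePlace.norm_embedding_eq _ _
        have h6 : InfinitePlace.mk φ (x : K) = ‖φ (x : K)‖ := InfinitePlace.apply φ (x : K)
        rw [← h6, ← h5]
        rfl
      rw [h4] at h3
      linarith
    exact (h1.preimage (RingOfIntegers.coe_injective.injOn)).subset h2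
  refine ⟨(hfin.subset (fun x hx => hx.2) : {x : 𝓞 K | cop x M ∧ ρ (D⁻¹ • E (x : K)) ≠ 0}.Finite).toFinset, ?_⟩
  intro x
  rw [Set.Finite.mem_toFinset]
  rfl

end Pool.Agent.T9h82.NF
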